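import Pool.Agent.Y497.ZO.LogPow
import Pool.Agent.Y708.ZO.Tan

set_option autoImplicit false
set_option linter.unusedSectionVars false

/-!
# Project DM: the associative algebra generated by the Lie algebra of the image
-/

open Matrix Polynomial Filter Topology

namespace Pool.Agent.L7h78.DM

open Pool.Agent.Y142.ZO Pool.Agent.Y497.ZO
open Pool.Agent.Y708.ZO (tan mem_tan)

attribute [local instance] Matrix.normedAddCommGroup Matrix.normedSpace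

variable {ℓ : ℕ} [Fact ℓ.Prime] {N : ℕ}

local instance ultra' : IsUltrametricDist (Mt ℓ N) :=
  inferInstanceAs (IsUltrametricDist (Fin N → Fin N → ℚ_[ℓ]))

local instance compl' : CompleteSpace (Mt ℓ N) :=
  inferInstanceAs (CompleteSpace (Fin N → Fin N → ℚ_[ℓ]))

/-- linear maps are bounded -/
theorem exists_bound (φ : Mt ℓ N →ₗ[ℚ_[ℓ]] Mt ℓ N) : ∃ C : ℝ, 1 ≤ C ∧ ∀ Y, ‖φ Y‖ ≤ C * ‖Y‖ := by
  refine ⟨1 + ∑ i, ∑ j, ‖φ (Matrix.single i j 1)‖, ?_, fun Y => ?_⟩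
  · have : 0 ≤ ∑ i, ∑ j, ‖φ (Matrix.single i j 1)‖ :=
      Finset.sum_nonneg fun i _ => Finset.sum_nonneg fun j _ => norm_nonneg _
    linarith
  · have h1 : φ Y = ∑ i, ∑ j, Y i j • φ (Matrix.single i j 1) := by
      conv_lhs => rw [Matrix.matrix_eq_sum_single Y]
      rw [map_sum]
      refine Finset.sum_congr rfl fun i _ => ?_
      rw [map_sum]
      refine Finset.sum_congr rfl fun j _ => ?_
      rw [← map_smul, Matrix.smul_single, smul_eq_mul, mul_one]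
    have h2 : ‖φ Y‖ ≤ ∑ i, ∑ j, ‖Y‖ * ‖φ (Matrix.single i j 1)‖ := by
      rw [h1]
      refine (norm_sum_le _ _).trans (Finset.sum_le_sum fun i _ => ?_)
      refine (norm_sum_le _ _).trans (Finset.sum_le_sum fun j _ => ?_)
      rw [norm_smul]
      exact mul_le_mul_of_nonneg_right (Matrix.norm_entry_le_entrywise_sup_norm Y) (norm_nonneg _)
    refine h2.trans ?_
    have h3 : ∑ i, ∑ j, ‖Y‖ * ‖φ (Matrix.single i j 1)‖ =
        (∑ i, ∑ j, ‖φ (Matrix.single i j 1)‖) * ‖Y‖ := by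
      rw [mul_comm, Finset.mul_sum]
      exact Finset.sum_congr rfl fun i _ => (Finset.mul_sum _ _ _).symm
    rw [h3]
    exact mul_le_mul_of_nonneg_right (by linarith) (norm_nonneg _)

/-- **an algebra which contains the tangent vectors contains the image of an open subgroup** -/
theorem alg_open {G : Type} [Group G] [TopologicalSpace G] [IsTopologicalGroup G]
    {ρ : G →* Matrix (Fin N) (Fin N) ℚ_[ℓ]} (hρ : Continuous ρ)
    (𝒜 : Submodule ℚ_[ℓ] (Matrix (Fin N) (Fin N) ℚ_[ℓ])) (h1 : (1 : Matrix (Fin N) (Fin N) ℚ_[ℓ]) ∈ 𝒜)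
    (hmul : ∀ x ∈ 𝒜, ∀ y ∈ 𝒜, x * y ∈ 𝒜) (htan : ∀ X ∈ tan ρ, X ∈ 𝒜) :
    ∃ U : Subgroup G, IsOpen (U : Set G) ∧ ∀ σ ∈ U, ρ σ ∈ 𝒜 := by
  obtain ⟨f, hf⟩ := 𝒜.subtype.exists_leftInverse_of_injective
    (LinearMap.ker_eq_bot.2 Subtype.val_injective)
  let π : Mt ℓ N →ₗ[ℚ_[ℓ]] Mt ℓ N := 𝒜.subtype ∘ₗ f
  let φ : Mt ℓ N →ₗ[ℚ_[ℓ]] Mt ℓ N := LinearMap.id - π
  have hπ : ∀ Y, π Y ∈ 𝒜 := fun Y => (f Y).2
  have hπ1 : ∀ Y ∈ 𝒜, π Y = Y := by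
    intro Y hY
    have := LinearMap.congr_fun hf ⟨Y, hY⟩
    simp only [LinearMap.comp_apply, Submodule.subtype_apply, LinearMap.id_apply] at this
    show ((f Y : 𝒜) : Mt ℓ N) = Y
    rw [this]
  have hφ : ∀ Y, φ Y = Y - π Y := fun Y => rfl
  have hφ0 : ∀ Y ∈ 𝒜, φ Y = 0 := fun Y hY => by rw [hφ, hπ1 Y hY, sub_self]
  have hφ1 : ∀ Y, φ Y = 0 → Y ∈ 𝒜 := by
    intro Y hY
    rw [hφ, sub_eq_zero] at hY
    rw [hY]
    exact hπ Y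
  obtain ⟨C₁, hC₁, hb₁⟩ := exists_bound φ
  obtain ⟨C₂, hC₂, hb₂⟩ := exists_bound π
  obtain ⟨C, hC⟩ : ∃ C : ℝ, C = max C₁ C₂ := ⟨_, rfl⟩
  have hC1 : 1 ≤ C := by rw [hC]; exact hC₁.trans (le_max_left _ _)
  have hC0 : 0 < C := by linarith
  have hφb : ∀ Y, ‖φ Y‖ ≤ C * ‖Y‖ := fun Y => (hb₁ Y).trans
    (mul_le_mul_of_nonneg_right (by rw [hC]; exact le_max_left _ _) (norm_nonneg _))
  have hπb : ∀ Y, ‖π Y‖ ≤ C * ‖Y‖ := fun Y => (hb₂ Y).trans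
    (mul_le_mul_of_nonneg_right (by rw [hC]; exact le_max_right _ _) (norm_nonneg _))
  have hCi : (C ^ 2)⁻¹ ≤ 1 := inv_le_one_of_one_le₀ (one_le_pow₀ hC1)
  have hpow : ∀ A : Mt ℓ N, ‖A‖ ≤ (C ^ 2)⁻¹ → ∀ k, 1 ≤ k → ‖φ (A ^ k)‖ ≤ ‖φ A‖ := by
    intro A hA k hk
    induction k, hk using Nat.le_induction with
    | base => rw [pow_one]
    | succ k hk ih =>
      have e1 : φ (A ^ (k + 1)) = φ (π (A ^ k) * φ A) + φ (φ (A ^ k) * A) := by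
        have e2 : A ^ (k + 1) = π (A ^ k) * π A + (π (A ^ k) * φ A + φ (A ^ k) * A) := by
          rw [hφ, hφ, pow_succ]
          noncomm_ring
        rw [e2, map_add, hφ0 _ (hmul _ (hπ _) _ (hπ _)), zero_add, map_add]
      rw [e1]
      refine (IsUltrametricDist.norm_add_le_max _ _).trans (max_le ?_ ?_)
      · have e3 : ‖A ^ k‖ ≤ (C ^ 2)⁻¹ := npow A hA hCi k hk
        calc _ ≤ C * ‖π (A ^ k) * φ A‖ := hφb _
          _ ≤ C * (‖π (A ^ k)‖ * ‖φ A‖) := mul_le_mul_of_nonneg_left (nmul _ _) hC0.le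
          _ ≤ C * ((C * (C ^ 2)⁻¹) * ‖φ A‖) := by
              refine mul_le_mul_of_nonneg_left ?_ hC0.le
              refine mul_le_mul_of_nonneg_right ?_ (norm_nonneg _)
              exact (hπb _).trans (mul_le_mul_of_nonneg_left e3 hC0.le)
          _ = ‖φ A‖ := by field_simp
      · calc _ ≤ C * ‖φ (A ^ k) * A‖ := hφb _
          _ ≤ C * (‖φ (A ^ k)‖ * ‖A‖) := mul_le_mul_of_nonneg_left (nmul _ _) hC0.le
          _ ≤ C * (‖φ A‖ * (C ^ 2)⁻¹) := by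
              refine mul_le_mul_of_nonneg_left ?_ hC0.le
              exact mul_le_mul ih hA (norm_nonneg _) (norm_nonneg _)
          _ = ‖φ A‖ * C⁻¹ := by field_simp
          _ ≤ ‖φ A‖ := mul_le_of_le_one_right (norm_nonneg _) (inv_le_one_of_one_le₀ hC1)
  have hl : (0 : ℝ) < ((ℓ : ℝ) ^ 2)⁻¹ := inv_pos.2 (pow_pos lR_pos 2)
  obtain ⟨U, hU1, hU2⟩ := exists_open G ρ hρ (((ℓ : ℝ) ^ 2)⁻¹ * (C ^ 2)⁻¹)
    (mul_pos hl (by positivity)) (mul_le_one₀ (inv_pow_le 2) (by positivity) hCi)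
  refine ⟨U, hU1, fun σ hσ => ?_⟩
  have h0 : ‖Aj (ρ σ) 0‖ ≤ (C ^ 2)⁻¹ := aj_zero _ (hU2 σ hσ)
  obtain ⟨A, hA⟩ := exists_lim (ρ σ) (h0.trans hCi)
  have h2 := norm_lim φ hCi hpow (ρ σ) h0 A hA
  rw [hφ0 A (htan A ((mem_tan _ _).2 (aj_tangent ρ σ A hA))), norm_zero, eq_comm,
    norm_eq_zero] at h2
  have h3 : Aj (ρ σ) 0 ∈ 𝒜 := hφ1 _ h2
  have h7 := pow_eq (ρ σ) 0
  rw [pow_zero, pow_one, zero_add] at h7
  rw [h7]
  exact 𝒜.add_mem h1 (𝒜.smul_mem _ h3)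

/-- **the Lie algebra of an absolutely irreducible image generates all matrices** -/
theorem adj_top {G : Type} [Group G] [TopologicalSpace G] [IsTopologicalGroup G]
    {ρ : G →* Matrix (Fin N) (Fin N) ℚ_[ℓ]} (hρ : Continuous ρ)
    (hspan : ∀ Δ : Subgroup G, IsOpen (Δ : Set G) →
      Submodule.span ℚ_[ℓ] {x | ∃ σ ∈ Δ, x = ρ σ} = ⊤) :
    Algebra.adjoin ℚ_[ℓ] ((tan ρ : Submodule ℚ_[ℓ] (Matrix (Fin N) (Fin N) ℚ_[ℓ])) :
      Set (Matrix (Fin N) (Fin N) ℚ_[ℓ])) = ⊤ := by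
  obtain ⟨U, hU, h1⟩ := alg_open hρ (Subalgebra.toSubmodule (Algebra.adjoin ℚ_[ℓ]
    ((tan ρ : Submodule ℚ_[ℓ] (Matrix (Fin N) (Fin N) ℚ_[ℓ])) : Set (Matrix (Fin N) (Fin N) ℚ_[ℓ]))))
    (Subalgebra.one_mem _) (fun x hx y hy => Subalgebra.mul_mem _ hx hy)
    (fun X hX => Algebra.subset_adjoin hX)
  rw [eq_top_iff]
  intro X _
  have h2 : X ∈ Submodule.span ℚ_[ℓ] {x | ∃ σ ∈ U, x = ρ σ} := by
    rw [hspan U hU]
    trivial
  have h3 : Submodule.span ℚ_[ℓ] {x | ∃ σ ∈ U, x = ρ σ} ≤ Subalgebra.toSubmodule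
      (Algebra.adjoin ℚ_[ℓ] ((tan ρ : Submodule ℚ_[ℓ] (Matrix (Fin N) (Fin N) ℚ_[ℓ])) :
        Set (Matrix (Fin N) (Fin N) ℚ_[ℓ]))) := by
    rw [Submodule.span_le]
    rintro _ ⟨σ, hσ, rfl⟩
    exact h1 σ hσ
  exact h3 h2

end Pool.Agent.L7h78.DM
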