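import Pool.Agent.L7h78.DM.Mf

set_option autoImplicit false
set_option linter.unusedSectionVars false

/-!
# Project DM: multiplicity one in dimension at most six, the theorem
-/

open Module

namespace Pool.Agent.L7h78.DM

open Pool.Agent.Y102.SP Pool.Agent.R912

variable {U : Type} [AddCommGroup U] [Module ℂ U] [FiniteDimensional ℂ U]
  {T : Type} [AddCommGroup T] [Module ℂ T] {L : Submodule ℂ (Module.End ℂ U)} {S : RS L T}

theorem stable_of {P : Submodule ℂ U} (h1 : ∀ t, ∀ u ∈ P, S.ι t u ∈ P)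
    (h2 : ∀ δ ∈ S.R.Φ, ∀ u ∈ P, S.e δ u ∈ P) : ∀ x ∈ L, ∀ u ∈ P, x u ∈ P := by
  intro x hx u hu
  obtain ⟨y1, ⟨t, rfl⟩, z, hz, rfl⟩ := Submodule.mem_sup.1 (S.span hx)
  rw [LinearMap.add_apply]
  refine Submodule.add_mem _ (h1 t u hu) ?_
  clear hx
  induction hz using Submodule.span_induction with
  | mem z hz =>
    obtain ⟨α, hα, rfl⟩ := hz
    exact h2 α hα u hu
  | zero => exact Submodule.zero_mem _
  | add y z _ _ hy hz => exact Submodule.add_mem _ hy hz
  | smul c z _ hz => exact Submodule.smul_mem _ c hz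

namespace Six

variable {ω α β : Module.Dual ℂ T}

theorem absurd' (h : Six S ω α β) (W : WP S) (hirr : Irr L) {a b : U}
    (ha : a ∈ usp S.ι (ω + α)) (ha0 : a ≠ 0) (hb : b ∈ usp S.ι (ω + β))
    (hind : S.e (-β) b ∉ Submodule.span ℂ {S.e (-α) a}) (hdim : 4 ≤ finrank ℂ U) : False := by
  have hα := h.hα
  have hα' := S.R.neg α h.hα
  have hβ' := S.R.neg β h.hβ
  obtain ⟨a0, ha0def⟩ : ∃ a0, a0 = S.e (-α) a := ⟨_, rfl⟩
  obtain ⟨a1, ha1def⟩ : ∃ a1, a1 = S.e (-α) a0 := ⟨_, rfl⟩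
  have hm0 : a0 ∈ usp S.ι ω := by
    have h1 := e_mem hα' ha
    have h2 : -α + (ω + α) = ω := by abel
    rw [h2] at h1
    rwa [ha0def]
  have hm1 : a1 ∈ usp S.ι (ω - α) := by
    have h1 := e_mem hα' hm0
    have h2 : -α + ω = ω - α := by abel
    rw [h2] at h1
    rwa [ha1def]
  have f1 : S.e α a = 0 := by
    refine e_zero hα ha (h.nw (a := 2) (b := 0) ?_ ?_)
    · rintro (⟨h3, -⟩ | ⟨h3, -⟩ | ⟨h3, -⟩ | ⟨h3, -⟩ | ⟨h3, -⟩) <;> norm_num at h3
    · module
  have f2 : S.e α a0 = (2 : ℂ) • a := by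
    have h1 := h_act W hα ha
    rw [f1, map_zero, sub_zero, map_add, h.prω W, S.R.two α hα, zero_add, ← ha0def] at h1
    rw [h1]
    norm_num
  have f3 : a1 ≠ 0 := by
    intro h1
    refine ha0 (W.inj α hα (ω + α) 2 ?_ a ha ?_)
    · rw [map_add, h.prω W, S.R.two α hα]
      norm_num
    · rw [pow_two, Module.End.mul_apply, ← ha0def, ← ha1def, h1]
  have f4 : S.e α a1 = (2 : ℂ) • a0 := by
    have h1 := h_act W hα hm0
    rw [h.prω W, Rat.cast_zero, zero_smul, ← ha1def, f2, map_smul, ← ha0def] at h1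
    exact sub_eq_zero.1 h1
  have f5 : S.e (-α) a1 = 0 := by
    refine e_zero hα' hm1 (h.nw (a := -2) (b := 0) ?_ ?_)
    · rintro (⟨h3, -⟩ | ⟨h3, -⟩ | ⟨h3, -⟩ | ⟨h3, -⟩ | ⟨h3, -⟩) <;> norm_num at h3
    · module
  rw [← ha0def] at hind
  by_cases c1 : β - α ∈ S.R.Φ
  · obtain ⟨c, hc⟩ := h.key W c1 ha ha0 hb
    apply hind
    rw [hc, ← ha0def]
    exact Submodule.smul_mem _ _ (Submodule.mem_span_singleton_self _)
  by_cases c2 : α + β ∈ S.R.Φ
  · have h1 : a1 ∈ usp S.ι (ω + -α) := by rwa [← sub_eq_add_neg]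
    obtain ⟨c, hc⟩ := h.neg.key W (by rw [sub_neg_eq_add, add_comm]; exact c2) h1 f3 hb
    apply hind
    rw [hc, neg_neg, f4, smul_smul]
    exact Submodule.smul_mem _ _ (Submodule.mem_span_singleton_self _)
  have c3 : -β + -α ∉ S.R.Φ := by
    intro h1
    have h2 := S.R.neg _ h1
    have h3 : -(-β + -α) = α + β := by abel
    rw [h3] at h2
    exact c2 h2
  have c4 : α - β ∉ S.R.Φ := by
    intro h1
    have h2 := S.R.neg _ h1
    rw [neg_sub] at h2
    exact c1 h2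
  -- `β` and `-β`
  have hcom : ∀ β' ∈ S.R.Φ, β' + -α ∉ S.R.Φ → β' + -α ≠ 0 → S.e β' a = 0 →
      S.e β' a0 = 0 ∧ S.e β' a1 = 0 := by
    intro β' hβ'' h1 h2 h3
    have h4 := S.add0 β' hβ'' (-α) hα' h2 h1
    have h5 : S.e β' a0 = 0 := by
      have h6 := congrArg (fun f : Module.End ℂ U => f a) h4
      simp only [Module.End.mul_apply, h3, map_zero] at h6
      rw [ha0def, h6]
    refine ⟨h5, ?_⟩
    have h6 := congrArg (fun f : Module.End ℂ U => f a0) h4
    simp only [Module.End.mul_apply, h5, map_zero] at h6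
    rw [ha1def, h6]
  have g1 : S.e β a = 0 := by
    refine e_zero h.hβ ha (h.nw (a := 1) (b := 1) ?_ ?_)
    · rintro (⟨h3, -⟩ | ⟨-, h3⟩ | ⟨h3, -⟩ | ⟨h3, -⟩ | ⟨h3, -⟩) <;> norm_num at h3
    · module
  have g2 : S.e (-β) a = 0 := by
    refine e_zero hβ' ha (h.nw (a := 1) (b := -1) ?_ ?_)
    · rintro (⟨h3, -⟩ | ⟨-, h3⟩ | ⟨h3, -⟩ | ⟨h3, -⟩ | ⟨h3, -⟩) <;> norm_num at h3
    · module
  obtain ⟨g3, g4⟩ := hcom β h.hβ (by rw [← sub_eq_add_neg]; exact c1)
    (by rw [← sub_eq_add_neg]; exact sub_ne_zero.2 h.ne) g1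
  obtain ⟨g5, g6⟩ := hcom (-β) hβ' c3 (by
    intro h1
    apply h.ne'
    have h2 : β = -α - (-β + -α) := by abel
    rw [h2, h1, sub_zero]) g2
  -- the other roots
  have hoth : ∀ δ ∈ S.R.Φ, δ ≠ α → δ ≠ -α → δ ≠ β → δ ≠ -β →
      S.e δ a = 0 ∧ S.e δ a0 = 0 ∧ S.e δ a1 = 0 := by
    intro δ hδ h1 h2 h3 h4
    have hδ0 : δ ≠ 0 := fun h5 => S.R.zero (h5 ▸ hδ)
    have n2 : ∀ q : ℚ, δ ≠ q • α := fun q => ne_smul hδ hα h1 h2 q
    refine ⟨?_, ?_, ?_⟩
    · refine e_zero hδ ha ?_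
      by_contra h5
      rcases h.all _ h5 with h6 | h6 | h6 | h6 | h6
      · apply h2
        calc δ = (δ + (ω + α)) - ω - α := by abel
          _ = -α := by rw [h6]; abel
      · apply hδ0
        calc δ = (δ + (ω + α)) - ω - α := by abel
          _ = 0 := by rw [h6]; abel
      · apply c1
        have : δ = β - α := by
          calc δ = (δ + (ω + α)) - ω - α := by abel
            _ = β - α := by rw [h6]; abel
        rwa [← this]
      · apply n2 (-2)
        calc δ = (δ + (ω + α)) - ω - α := by abel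
          _ = (-2 : ℚ) • α := by rw [h6]; module
      · apply c3
        have : δ = -β + -α := by
          calc δ = (δ + (ω + α)) - ω - α := by abel
            _ = -β + -α := by rw [h6]; abel
        rwa [← this]
    · refine e_zero hδ hm0 ?_
      by_contra h5
      rcases h.all _ h5 with h6 | h6 | h6 | h6 | h6
      · apply hδ0
        calc δ = (δ + ω) - ω := by abel
          _ = 0 := by rw [h6]; abel
      · apply h1
        calc δ = (δ + ω) - ω := by abel
          _ = α := by rw [h6]; abel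
      · apply h3
        calc δ = (δ + ω) - ω := by abel
          _ = β := by rw [h6]; abel
      · apply h2
        calc δ = (δ + ω) - ω := by abel
          _ = -α := by rw [h6]; abel
      · apply h4
        calc δ = (δ + ω) - ω := by abel
          _ = -β := by rw [h6]; abel
    · refine e_zero hδ hm1 ?_
      by_contra h5
      rcases h.all _ h5 with h6 | h6 | h6 | h6 | h6
      · apply h1
        calc δ = (δ + (ω - α)) - ω + α := by abel
          _ = α := by rw [h6]; abel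
      · apply n2 2
        calc δ = (δ + (ω - α)) - ω + α := by abel
          _ = (2 : ℚ) • α := by rw [h6]; module
      · apply c2
        have : δ = α + β := by
          calc δ = (δ + (ω - α)) - ω + α := by abel
            _ = α + β := by rw [h6]; abel
        rwa [← this]
      · apply hδ0
        calc δ = (δ + (ω - α)) - ω + α := by abel
          _ = 0 := by rw [h6]; abel
      · apply c4
        have : δ = α - β := by
          calc δ = (δ + (ω - α)) - ω + α := by abel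
            _ = α - β := by rw [h6]; abel
        rwa [← this]
  -- the subspace
  set P : Submodule ℂ U := Submodule.span ℂ {a, a0, a1} with hP
  have p0 : a ∈ P := Submodule.subset_span (by simp)
  have p1 : a0 ∈ P := Submodule.subset_span (by simp)
  have p2 : a1 ∈ P := Submodule.subset_span (by simp)
  have hlift : ∀ f : Module.End ℂ U, f a ∈ P → f a0 ∈ P → f a1 ∈ P → ∀ u ∈ P, f u ∈ P := by
    intro f h1 h2 h3 u hu
    have h4 : P ≤ P.comap f := by
      conv_lhs => rw [hP]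
      rw [Submodule.span_le]
      rintro x (rfl | rfl | rfl)
      · exact h1
      · exact h2
      · exact h3
    exact h4 hu
  have hst : ∀ x ∈ L, ∀ u ∈ P, x u ∈ P := by
    refine stable_of (S := S) (fun t => hlift _ ?_ ?_ ?_) (fun δ hδ => ?_)
    · rw [ha t]; exact P.smul_mem _ p0
    · rw [hm0 t]; exact P.smul_mem _ p1
    · rw [hm1 t]; exact P.smul_mem _ p2
    · by_cases d1 : δ = α
      · rw [d1]
        refine hlift _ ?_ ?_ ?_
        · rw [f1]; exact P.zero_mem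
        · rw [f2]; exact P.smul_mem _ p0
        · rw [f4]; exact P.smul_mem _ p1
      by_cases d2 : δ = -α
      · rw [d2]
        refine hlift _ ?_ ?_ ?_
        · rw [← ha0def]; exact p1
        · rw [← ha1def]; exact p2
        · rw [f5]; exact P.zero_mem
      by_cases d3 : δ = β
      · rw [d3]
        refine hlift _ ?_ ?_ ?_
        · rw [g1]; exact P.zero_mem
        · rw [g3]; exact P.zero_mem
        · rw [g4]; exact P.zero_mem
      by_cases d4 : δ = -β
      · rw [d4]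
        refine hlift _ ?_ ?_ ?_
        · rw [g2]; exact P.zero_mem
        · rw [g5]; exact P.zero_mem
        · rw [g6]; exact P.zero_mem
      obtain ⟨e1, e2, e3⟩ := hoth δ hδ d1 d2 d3 d4
      refine hlift _ ?_ ?_ ?_
      · rw [e1]; exact P.zero_mem
      · rw [e2]; exact P.zero_mem
      · rw [e3]; exact P.zero_mem
  have htop := hirr P (fun h1 => ha0 (by rw [h1] at p0; exact (Submodule.mem_bot ℂ).1 p0)) hst
  have h1 : finrank ℂ P ≤ 3 := by
    classical
    have h2 := finrank_span_finset_le_card (R := ℂ) ({a, a0, a1} : Finset U)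
    have h3 : ((({a, a0, a1} : Finset U) : Set U)) = {a, a0, a1} := by simp
    rw [h3] at h2
    exact h2.trans Finset.card_le_three
  rw [htop, finrank_top] at h1
  omega

end Six

/-- **multiplicity one** -/
theorem t_MF : S_MF := by
  intro U _ _ _ _ T _ _ L S hirr W _ hdim χ₁
  by_contra hχ₁
  have hfin := wt_finite S
  obtain ⟨φ, hφ, hinj⟩ := exists_phi S hfin
  -- the highest weight
  have hne : {χ : Module.Dual ℂ T | usp S.ι χ ≠ ⊥}.Nonempty := by
    by_contra h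
    rw [Set.not_nonempty_iff_eq_empty] at h
    have h1 : (⨆ χ, usp S.ι χ) = ⊥ := by
      rw [iSup_eq_bot]
      intro χ
      by_contra h2
      have h3 : χ ∈ {χ : Module.Dual ℂ T | usp S.ι χ ≠ ⊥} := h2
      rw [h] at h3
      exact h3
    rw [W.top] at h1
    exact top_ne_bot h1
  obtain ⟨χ₀, hχ₀, hmax⟩ := hfin.exists_maximalFor φ _ hne
  have hmax' : ∀ χ, usp S.ι χ ≠ ⊥ → φ χ ≤ φ χ₀ := fun χ hχ => by
    rcases le_total (φ χ) (φ χ₀) with h | h
    · exact h
    · exact hmax hχ h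
  obtain ⟨hone, hlow⟩ := highest hirr hφ hχ₀ hmax'
  -- the maximal weight of multiplicity two
  have hfin2 : {χ : Module.Dual ℂ T | 2 ≤ finrank ℂ (usp S.ι χ)}.Finite := by
    refine hfin.subset fun χ hχ h => ?_
    rw [Set.mem_ofPred_eq, h, finrank_bot] at hχ
    omega
  obtain ⟨ω, hω, hωmax⟩ := hfin2.exists_maximalFor φ _ ⟨χ₁, by
    rw [Set.mem_ofPred_eq]
    omega⟩
  rw [Set.mem_ofPred_eq] at hω
  have hωmax' : ∀ χ, 2 ≤ finrank ℂ (usp S.ι χ) → φ χ ≤ φ ω := fun χ hχ => by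
    rcases le_total (φ χ) (φ ω) with h | h
    · exact h
    · exact hωmax hχ h
  have hω0 : usp S.ι ω ≠ ⊥ := by
    intro h
    rw [h, finrank_bot] at hω
    omega
  have hωχ : ω ≠ χ₀ := by
    intro h
    rw [h] at hω
    omega
  have hlow' := hlow ω hωχ
  have hup : ∀ γ, φ γ < 0 → finrank ℂ (usp S.ι (ω - γ)) ≤ 1 := by
    intro γ hγ
    by_contra h
    have h1 := hωmax' (ω - γ) (by omega)
    rw [map_sub] at h1
    linarith
  -- the first root
  obtain ⟨γ₁, hγ₁, hn₁, w₁, hw₁, hv₁⟩ : ∃ γ ∈ S.R.Φ, φ γ < 0 ∧ ∃ w ∈ usp S.ι (ω - γ),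
      S.e γ w ≠ 0 := by
    by_contra hcon
    push Not at hcon
    apply hω0
    rw [eq_bot_iff]
    refine hlow'.trans ?_
    unfold low
    rw [Submodule.span_le]
    rintro _ ⟨γ, hγ, hn, w, hw, rfl⟩
    rw [SetLike.mem_coe, Submodule.mem_bot]
    exact hcon γ hγ hn w hw
  -- the second root
  obtain ⟨γ₂, hγ₂, hn₂, w₂, hw₂, hv₂⟩ : ∃ γ ∈ S.R.Φ, φ γ < 0 ∧ ∃ w ∈ usp S.ι (ω - γ),
      S.e γ w ∉ Submodule.span ℂ {S.e γ₁ w₁} := by
    by_contra hcon
    push Not at hcon
    have h1 : usp S.ι ω ≤ Submodule.span ℂ {S.e γ₁ w₁} := by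
      refine hlow'.trans ?_
      unfold low
      rw [Submodule.span_le]
      rintro _ ⟨γ, hγ, hn, w, hw, rfl⟩
      exact hcon γ hγ hn w hw
    have h2 := Submodule.finrank_mono h1
    have h3 := finrank_span_singleton (K := ℂ) hv₁
    omega
  have hw₁0 : w₁ ≠ 0 := fun h => hv₁ (by rw [h, map_zero])
  have hγ12 : γ₂ ≠ γ₁ := by
    rintro rfl
    have h1 : finrank ℂ (usp S.ι (ω - γ₂)) = 1 := by
      refine le_antisymm (hup _ hn₂) (Nat.one_le_iff_ne_zero.2 fun h => ?_)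
      have h2 := Submodule.finrank_eq_zero.1 h
      rw [h2] at hw₁
      exact hw₁0 ((Submodule.mem_bot ℂ).1 hw₁)
    obtain ⟨c, hc⟩ := (finrank_eq_one_iff_of_nonzero' (⟨w₁, hw₁⟩ : usp S.ι (ω - γ₂))
      (fun h => hw₁0 (congrArg Subtype.val h))).1 h1 ⟨w₂, hw₂⟩
    have hc' : w₂ = c • w₁ := (congrArg Subtype.val hc).symm
    apply hv₂
    rw [hc', map_smul]
    exact Submodule.smul_mem _ _ (Submodule.mem_span_singleton_self _)
  have hw₂0 : w₂ ≠ 0 := fun h => hv₂ (by rw [h, map_zero]; exact Submodule.zero_mem _)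
  -- positive roots
  obtain ⟨α, hαdef⟩ : ∃ α, α = -γ₁ := ⟨_, rfl⟩
  obtain ⟨β, hβdef⟩ : ∃ β, β = -γ₂ := ⟨_, rfl⟩
  have hγ₁' : γ₁ = -α := by rw [hαdef, neg_neg]
  have hγ₂' : γ₂ = -β := by rw [hβdef, neg_neg]
  have hα : α ∈ S.R.Φ := by rw [hαdef]; exact S.R.neg _ hγ₁
  have hβ : β ∈ S.R.Φ := by rw [hβdef]; exact S.R.neg _ hγ₂
  have hαp : 0 < φ α := by rw [hαdef, map_neg]; linarith
  have hβp : 0 < φ β := by rw [hβdef, map_neg]; linarith
  rw [hγ₁', sub_neg_eq_add] at hw₁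
  rw [hγ₂', sub_neg_eq_add] at hw₂
  rw [hγ₁'] at hv₁ hv₂
  rw [hγ₂'] at hv₂
  have hαβ : β ≠ α := by
    intro h
    apply hγ12
    rw [hγ₁', hγ₂', h]
  have hαβ' : β ≠ -α := by
    intro h
    rw [h, map_neg] at hβp
    linarith
  have hstr : ∀ δ ∈ S.R.Φ, 0 < φ δ → ∀ w ∈ usp S.ι (ω + δ), w ≠ 0 →
      usp S.ι (ω + δ) ≠ ⊥ ∧ usp S.ι (ω - δ) ≠ ⊥ := by
    intro δ hδ hp w hw hw0
    have h1 : usp S.ι (ω + δ) ≠ ⊥ := fun h => hw0 (by
      rw [h] at hw; exact (Submodule.mem_bot ℂ).1 hw)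
    have h2 : 0 ≤ S.R.pr δ ω := by
      have h3 := W.refl δ hδ ω hω0
      have h4 := hωmax' (ω - S.R.pr δ ω • δ) (by rw [h3]; exact hω)
      rw [map_sub, map_smul, smul_eq_mul] at h4
      by_contra h5
      push Not at h5
      nlinarith
    have h3 := W.str δ hδ (ω + δ) 2 (by
      rw [map_add, S.R.two δ hδ]
      push_cast
      linarith) h1
    refine ⟨h1, ?_⟩
    have h4 : ω + δ - ((2 : ℕ) : ℚ) • δ = ω - δ := by
      push_cast
      module
    rwa [h4] at h3
  obtain ⟨a1, a2⟩ := hstr α hα hαp w₁ hw₁ hw₁0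
  obtain ⟨b1, b2⟩ := hstr β hβ hβp w₂ hw₂ hw₂0
  -- counting
  have hα0 : α ≠ 0 := fun h => S.R.zero (h ▸ hα)
  have hβ0 : β ≠ 0 := fun h => S.R.zero (h ▸ hβ)
  have pos : ∀ χ, usp S.ι χ ≠ ⊥ → 1 ≤ finrank ℂ (usp S.ι χ) := fun χ hχ =>
    Nat.one_le_iff_ne_zero.2 fun h => hχ (Submodule.finrank_eq_zero.1 h)
  have n1 : ω ≠ ω + α := fun h => hα0 (by simpa using h)
  have n2 : ω ≠ ω + β := fun h => hβ0 (by simpa using h)
  have n3 : ω ≠ ω - α := fun h => hα0 (sub_eq_self.1 h.symm)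
  have n4 : ω ≠ ω - β := fun h => hβ0 (sub_eq_self.1 h.symm)
  have n5 : ω + α ≠ ω + β := fun h => hαβ (by simpa using h.symm)
  have n6 : ω + α ≠ ω - α := by
    intro h
    have h1 := congrArg φ h
    rw [map_add, map_sub] at h1
    linarith
  have n7 : ω + α ≠ ω - β := by
    intro h
    have h1 := congrArg φ h
    rw [map_add, map_sub] at h1
    linarith
  have n8 : ω + β ≠ ω - α := by
    intro h
    have h1 := congrArg φ h
    rw [map_add, map_sub] at h1
    linarith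
  have n9 : ω + β ≠ ω - β := by
    intro h
    have h1 := congrArg φ h
    rw [map_add, map_sub] at h1
    linarith
  have n10 : ω - α ≠ ω - β := fun h => hαβ (by simpa using h.symm)
  classical
  have hsum : ∀ f : Module.Dual ℂ T → ℕ,
      ∑ χ ∈ ({ω, ω + α, ω + β, ω - α, ω - β} : Finset (Module.Dual ℂ T)), f χ =
        f ω + (f (ω + α) + (f (ω + β) + (f (ω - α) + f (ω - β)))) := by
    intro f
    rw [Finset.sum_insert (by simp [n1, n2, n3, n4]), Finset.sum_insert (by simp [n5, n6, n7]),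
      Finset.sum_insert (by simp [n8, n9]), Finset.sum_insert (by simpa using n10),
      Finset.sum_singleton]
  have hc := W.card {ω, ω + α, ω + β, ω - α, ω - β}
  rw [hsum] at hc
  have p1 := pos _ a1
  have p2 := pos _ a2
  have p3 := pos _ b1
  have p4 := pos _ b2
  have hall : ∀ χ, usp S.ι χ ≠ ⊥ → χ = ω ∨ χ = ω + α ∨ χ = ω + β ∨ χ = ω - α ∨ χ = ω - β := by
    intro χ hχ
    by_contra hcon
    have h1 : χ ∉ ({ω, ω + α, ω + β, ω - α, ω - β} : Finset (Module.Dual ℂ T)) := by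
      simpa using hcon
    have h2 := W.card (insert χ {ω, ω + α, ω + β, ω - α, ω - β})
    rw [Finset.sum_insert h1, hsum] at h2
    have h3 := pos χ hχ
    omega
  have hsix : Six S ω α β :=
    { hα := hα, hβ := hβ, ne := hαβ, ne' := hαβ', all := hall, w0 := hω0, w1 := a1, w2 := b1,
      w3 := a2, w4 := b2, d1 := by omega, d2 := by omega, d3 := by omega, d4 := by omega }
  exact hsix.absurd' W hirr hw₁ hw₁0 hw₂ hv₂ (by omega)

end Pool.Agent.L7h78.DM
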