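import Pool.Agent.L7h78.DM.Adj
import Pool.Agent.L7h78.DM.Mf2
import Pool.Agent.L7h53.DM.Desc
import Pool.Agent.L7h53.DM.Nor
import Pool.Agent.L7h53.DM.Irr
import Pool.Agent.L7h50.DM.Wp
import Pool.Agent.L7h50.DM.T3
import Pool.Agent.L7h50.DM.Rs
import Pool.Agent.L7h78.VC.Fin

/-!
# Project DM: dimension at most six, assembly
-/

set_option autoImplicit false
set_option linter.unusedSectionVars false

open Matrix Polynomial Filter Topology NumberField IsDedekindDomain Module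
open Pool.Agent.Y142.ZO Pool.Agent.Y142.ZI Pool.Agent.Y142.ZS
open Pool.Agent.R932.SQ Pool.Agent.N171.TG

namespace Pool.Agent.L7h78.DM

/-- the span of the image is a Lie algebra -/
theorem span_lie {F : Type} [Field F] {ι : F →+* ℂ} {N : ℕ}
    {𝔥 : Submodule F (Matrix (Fin N) (Fin N) F)} (h : ∀ X ∈ 𝔥, ∀ Y ∈ 𝔥, X * Y - Y * X ∈ 𝔥) :
    ∀ x ∈ Submodule.span ℂ ((fun X : Matrix (Fin N) (Fin N) F => X.map ι) '' (𝔥 : Set _)),
      ∀ y ∈ Submodule.span ℂ ((fun X : Matrix (Fin N) (Fin N) F => X.map ι) '' (𝔥 : Set _)),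
        x * y - y * x ∈
          Submodule.span ℂ ((fun X : Matrix (Fin N) (Fin N) F => X.map ι) '' (𝔥 : Set _)) := by
  intro x hx y hy
  induction hx using Submodule.span_induction with
  | mem x hx =>
    obtain ⟨X, hX, rfl⟩ := hx
    induction hy using Submodule.span_induction with
    | mem y hy =>
      obtain ⟨Y, hY, rfl⟩ := hy
      refine Submodule.subset_span ⟨X * Y - Y * X, h X hX Y hY, ?_⟩
      show (X * Y - Y * X).map ι = X.map ι * Y.map ι - Y.map ι * X.map ι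
      rw [← Matrix.map_mul, ← Matrix.map_mul, Matrix.map_sub _ (fun a b => map_sub ι a b)]
    | zero => rw [mul_zero, zero_mul, sub_zero]; exact Submodule.zero_mem _
    | add y z _ _ hy hz =>
      have h1 : X.map ι * (y + z) - (y + z) * X.map ι =
        (X.map ι * y - y * X.map ι) + (X.map ι * z - z * X.map ι) := by noncomm_ring
      show X.map ι * (y + z) - (y + z) * X.map ι ∈ _
      rw [h1]
      exact Submodule.add_mem _ hy hz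
    | smul c y _ hy =>
      have h1 : X.map ι * (c • y) - (c • y) * X.map ι = c • (X.map ι * y - y * X.map ι) := by
        rw [mul_smul_comm, smul_mul_assoc, smul_sub]
      show X.map ι * (c • y) - (c • y) * X.map ι ∈ _
      rw [h1]
      exact Submodule.smul_mem _ _ hy
  | zero => rw [mul_zero, zero_mul, sub_zero]; exact Submodule.zero_mem _
  | add x z _ _ hx hz =>
    have h1 : (x + z) * y - y * (x + z) = (x * y - y * x) + (z * y - y * z) := by noncomm_ring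
    rw [h1]
    exact Submodule.add_mem _ hx hz
  | smul c x _ hx =>
    have h1 : (c • x) * y - y * (c • x) = c • (x * y - y * x) := by
      rw [mul_smul_comm, smul_mul_assoc, smul_sub]
    rw [h1]
    exact Submodule.smul_mem _ _ hx

theorem sk_lie {F : Type} [Field F] {N : ℕ} {J : Matrix (Fin N) (Fin N) F}
    {𝔤 : Submodule F (Matrix (Fin N) (Fin N) F)} (h : ∀ X ∈ 𝔤, ∀ Y ∈ 𝔤, X * Y - Y * X ∈ 𝔤) :
    ∀ X ∈ Sk J 𝔤, ∀ Y ∈ Sk J 𝔤, X * Y - Y * X ∈ Sk J 𝔤 := by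
  rintro X ⟨h1, a, h2⟩ Y ⟨h3, b, h4⟩
  refine ⟨?_, 0, ?_⟩
  · have h5 : Xᵀ * J = -(J * X) := eq_neg_of_add_eq_zero_left h1
    have h6 : Yᵀ * J = -(J * Y) := eq_neg_of_add_eq_zero_left h3
    rw [transpose_sub, transpose_mul, transpose_mul, sub_mul, mul_sub, mul_assoc, mul_assoc, h5, h6,
      mul_neg, mul_neg, ← mul_assoc, ← mul_assoc, h5, h6]
    noncomm_ring
  · have h5 := h _ h2 _ h4
    have h6 : (X + a • (1 : Matrix (Fin N) (Fin N) F)) * (Y + b • (1 : Matrix (Fin N) (Fin N) F)) -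
        (Y + b • (1 : Matrix (Fin N) (Fin N) F)) * (X + a • (1 : Matrix (Fin N) (Fin N) F)) =
        X * Y - Y * X := by
      simp only [mul_add, add_mul, mul_smul_comm, smul_mul_assoc, mul_one, one_mul, smul_add]
      rw [smul_comm b a (1 : Matrix (Fin N) (Fin N) F)]
      abel
    rw [h6] at h5
    rwa [zero_smul, add_zero]

/-- **an element of the Lie algebra without isotropic relation** -/
theorem noRel_of_irr (hGEN : S_GEN) {ℓ : ℕ} [hℓ : Fact ℓ.Prime] {N : ℕ} (hN : N ≤ 6) {G : Type}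
    [Group G] [TopologicalSpace G] [IsTopologicalGroup G] {ρ : G →* Matrix (Fin N) (Fin N) ℚ_[ℓ]}
    (hρ : Continuous ρ) {J : Matrix (Fin N) (Fin N) ℚ_[ℓ]} (hd : J.det ≠ 0)
    (hI : ∀ g, ∃ c, Sim J (ρ g) c)
    (hspan : ∀ Δ : Subgroup G, IsOpen (Δ : Set G) →
      Submodule.span ℚ_[ℓ] {x | ∃ σ ∈ Δ, x = ρ σ} = ⊤) :
    ∃ (X : Matrix (Fin N) (Fin N) ℚ_[ℓ]) (c : ℚ_[ℓ]), IsTangent ℓ ρ X ∧
      Xᵀ * J + J * X = c • J ∧ NoRel X.charpoly c := by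
  have hlie : ∀ X ∈ Y708.ZO.tan ρ, ∀ Y ∈ Y708.ZO.tan ρ, X * Y - Y * X ∈ Y708.ZO.tan ρ :=
    fun X hX Y hY => Y708.ZO.tangent_lie ρ hX hY
  have hmul : ∀ X ∈ Y708.ZO.tan ρ, ∃ c : ℚ_[ℓ], Xᵀ * J + J * X = c • J := fun X hX =>
    Pool.Agent.Y710.ZS.t1 ℓ N G ρ J hd hI X hX
  obtain ⟨e⟩ := emb_alg ℓ
  set ι : ℚ_[ℓ] →+* ℂ := (e : Lb ℓ →+* ℂ).comp (algebraMap ℚ_[ℓ] (Lb ℓ)) with hι
  have hirr := Pool.Agent.L7h53.DM.t_IRR ℚ_[ℓ] ι N J (Y708.ZO.tan ρ) hmul (adj_top hρ hspan)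
  have hsk : ∀ x ∈ Submodule.span ℂ ((fun X : Matrix (Fin N) (Fin N) ℚ_[ℓ] => X.map ι) ''
      ((Sk J (Y708.ZO.tan ρ) : Submodule ℚ_[ℓ] (Matrix (Fin N) (Fin N) ℚ_[ℓ])) : Set _)),
      xᵀ * J.map ι + J.map ι * x = 0 := by
    intro x hx
    induction hx using Submodule.span_induction with
    | mem x hx =>
      obtain ⟨X, hX, rfl⟩ := hx
      have h1 : (Xᵀ * J + J * X).map ι = 0 := by
        rw [hX.1]
        exact Matrix.map_zero ι (map_zero ι)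
      rw [Matrix.map_add ι (fun a b => map_add ι a b), Matrix.map_mul, Matrix.map_mul] at h1
      exact h1
    | zero => rw [transpose_zero, zero_mul, mul_zero, add_zero]
    | add x y _ _ hx hy =>
      rw [transpose_add, add_mul, mul_add]
      have h1 : xᵀ * J.map ι + yᵀ * J.map ι + (J.map ι * x + J.map ι * y) =
        (xᵀ * J.map ι + J.map ι * x) + (yᵀ * J.map ι + J.map ι * y) := by abel
      rw [h1, hx, hy, add_zero]
    | smul c x _ hx =>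
      rw [transpose_smul, smul_mul_assoc, mul_smul_comm, ← smul_add, hx, smul_zero]
  have hdet : (J.map ι).det ≠ 0 := by
    have h1 : (J.map ι).det = ι J.det := (RingHom.map_det ι J).symm
    rw [h1]
    exact (map_ne_zero ι).2 hd
  obtain ⟨X', ⟨hX1, a, hX2⟩, hgd⟩ := Pool.Agent.L7h53.DM.t_DESC ℚ_[ℓ] ι N
    (Sk J (Y708.ZO.tan ρ)) (hGEN N hN _ (J.map ι) hdet (span_lie (sk_lie hlie)) hsk
      (fun P hP hst => hirr P hP (fun X hX u hu => hst _ (Submodule.subset_span ⟨X, hX, rfl⟩) u hu)))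
  refine ⟨X' + a • (1 : Matrix (Fin N) (Fin N) ℚ_[ℓ]), 2 * a, hX2, ?_,
    Pool.Agent.L7h53.DM.t_NOR ℚ_[ℓ] (Lb ℓ) N hN J X' a hd hX1 hgd⟩
  rw [transpose_add, transpose_smul, transpose_one, add_mul, mul_add, smul_mul_assoc, one_mul,
    mul_smul_comm, mul_one]
  have h1 : X'ᵀ * J + a • J + (J * X' + a • J) = (X'ᵀ * J + J * X') + (2 * a) • J := by
    rw [two_mul, add_smul]; abel
  rw [h1, hX1, zero_add]

/-- **semisimplicity at every prime number in dimension at most six** -/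
theorem ss_of_irr (hGEN : S_GEN) {K : Type} [Field K] [NumberField K] (hK : finrank ℚ K = 1)
    {Γ : Type} [Group Γ] (θ : GK K →* Γ) {N w : ℕ} (hN : N ≤ 6) (hw : 0 < w)
    {S : Set (HeightOneSpectrum (𝓞 K))} (hS : S.Finite) (P : HeightOneSpectrum (𝓞 K) → ℤ[X])
    (hP : ∀ v ∉ S, (P v).Monic ∧
      ∀ z : ℂ, aeval z (P v) = 0 → ‖z‖ ^ 2 = (Ideal.absNorm v.asIdeal : ℝ) ^ w)
    (ρ : ∀ (ℓ : ℕ) [Fact ℓ.Prime], Γ →* Matrix (Fin N) (Fin N) ℚ_[ℓ])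
    (hρ : ∀ (ℓ : ℕ) [Fact ℓ.Prime], Continuous ((ρ ℓ).comp θ))
    (J : ∀ (ℓ : ℕ) [Fact ℓ.Prime], Matrix (Fin N) (Fin N) ℚ_[ℓ])
    (hJ : ∀ (ℓ : ℕ) [Fact ℓ.Prime], (J ℓ)ᵀ = J ℓ ∨ (J ℓ)ᵀ = -J ℓ)
    (hdet : ∀ (ℓ : ℕ) [Fact ℓ.Prime], (J ℓ).det ≠ 0)
    (χ : ∀ (ℓ : ℕ) [Fact ℓ.Prime], Γ → ℚ_[ℓ])
    (hχ : ∀ (ℓ : ℕ) [Fact ℓ.Prime] (g : Γ), (ρ ℓ g)ᵀ * J ℓ * ρ ℓ g = χ ℓ g • J ℓ)
    (hfrob : ∀ (ℓ : ℕ) [Fact ℓ.Prime], ∀ v ∉ S, (ℓ : 𝓞 K) ∉ v.asIdeal → ∀ σ : GK K,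
      IsFrobenius v σ → (ρ ℓ (θ σ⁻¹)).charpoly = (P v).map (algebraMap ℤ ℚ_[ℓ]) ∧
      χ ℓ (θ σ⁻¹) = (Ideal.absNorm v.asIdeal : ℚ_[ℓ]) ^ w)
    (ℓ₀ : ℕ) [hℓ₀ : Fact ℓ₀.Prime]
    (hspan : ∀ Δ : Subgroup (GK K), IsOpen (Δ : Set (GK K)) →
      Submodule.span ℚ_[ℓ₀] {x | ∃ σ ∈ Δ, x = ((ρ ℓ₀).comp θ) σ} = ⊤)
    (ℓ : ℕ) [hℓ : Fact ℓ.Prime] (U : Subgroup Γ) (hU : U.FiniteIndex) :
    SSu (Pool.Agent.L7h78.VC.endRep (ρ ℓ)) U := by
  refine SSu.finite_index (fun M hM => ?_) U hU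
  obtain ⟨X, c, hX, hXJ, hno⟩ := noRel_of_irr hGEN hN (hρ ℓ₀) (hdet ℓ₀)
    (fun g => ⟨_, hχ ℓ₀ (θ g)⟩) hspan
  obtain ⟨h1, h2⟩ := semisimple_all hK θ hw hS P hP ρ hρ J hJ hdet χ hχ hfrob ℓ₀ hX hXJ hno
    ℓ M (fun g x hx => hM g (Subgroup.mem_top g) x hx)
  exact ⟨_, fun g _ x hx => h2 g x hx, h1⟩

end Pool.Agent.L7h78.DM
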