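import Pool.Agent.L7h78.DM.Stm
import Pool.Agent.Y102.SP.Fun

set_option autoImplicit false
set_option linter.unusedSectionVars false

/-!
# Project DM: weights and the highest weight
-/

open Module

namespace Pool.Agent.L7h78.DM

open Pool.Agent.Y102.SP Pool.Agent.R912

variable {U : Type} [AddCommGroup U] [Module ℂ U] [FiniteDimensional ℂ U]
  {T : Type} [AddCommGroup T] [Module ℂ T] {L : Submodule ℂ (Module.End ℂ U)} (S : RS L T)

theorem wt_finite : {χ : Module.Dual ℂ T | usp S.ι χ ≠ ⊥}.Finite :=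
  WellFoundedGT.finite_ne_bot_of_iSupIndep S.usp_indep

theorem exists_phi {F : Set (Module.Dual ℂ T)} (hF : F.Finite) :
    ∃ φ : Module.Dual ℂ T →ₗ[ℚ] ℚ, (∀ α ∈ S.R.Φ, φ α ≠ 0) ∧
      ∀ χ ∈ F, ∀ ψ ∈ F, φ χ = φ ψ → χ = ψ := by
  obtain ⟨φ, -, hφ⟩ := avoid (F := S.R.Φ ∪ (fun p : Module.Dual ℂ T × Module.Dual ℂ T =>
    p.1 - p.2) '' (F ×ˢ F)) (S.R.fin.union ((hF.prod hF).image _)) ⊥
  refine ⟨φ, fun α hα => hφ α (Or.inl hα) (fun h => ?_), fun χ hχ ψ hψ h => ?_⟩
  · rw [(Submodule.mem_bot ℚ).1 h] at hα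
    exact S.R.zero hα
  · by_contra hne
    refine hφ (χ - ψ) (Or.inr ⟨(χ, ψ), ⟨hχ, hψ⟩, rfl⟩) (fun h1 => ?_) ?_
    · exact hne (sub_eq_zero.1 ((Submodule.mem_bot ℚ).1 h1))
    · rw [map_sub, h, sub_self]

variable {S}

/-- words of negative roots lower the value of `φ` -/
theorem sum_neg {φ : Module.Dual ℂ T →ₗ[ℚ] ℚ} (l : List (Module.Dual ℂ T))
    (hl : ∀ γ ∈ l, γ ∈ S.R.Φ ∧ φ γ < 0) : φ l.sum ≤ 0 ∧ (l ≠ [] → φ l.sum < 0) := by
  induction l with
  | nil => exact ⟨by simp, fun h => absurd rfl h⟩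
  | cons γ l ih =>
    have h1 := (hl γ List.mem_cons_self).2
    have h2 := (ih fun β hβ => hl β (List.mem_cons_of_mem _ hβ)).1
    rw [List.sum_cons, map_add]
    exact ⟨by linarith, fun _ => by linarith⟩

/-- the vectors of weight `χ` which come from higher weights -/
def low (S : RS L T) (φ : Module.Dual ℂ T →ₗ[ℚ] ℚ) (χ : Module.Dual ℂ T) : Submodule ℂ U :=
  Submodule.span ℂ {v | ∃ γ ∈ S.R.Φ, φ γ < 0 ∧ ∃ w ∈ usp S.ι (χ - γ), v = S.e γ w}

theorem low_le (φ : Module.Dual ℂ T →ₗ[ℚ] ℚ) (χ : Module.Dual ℂ T) :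
    low S φ χ ≤ usp S.ι χ := by
  unfold low
  rw [Submodule.span_le]
  rintro _ ⟨γ, hγ, -, w, hw, rfl⟩
  have h1 := S.usp_mul (fun t => S.wt γ hγ t) hw
  rwa [add_sub_cancel] at h1

/-- **the highest weight** -/
theorem highest (hirr : Irr L) {φ : Module.Dual ℂ T →ₗ[ℚ] ℚ} (hφ : ∀ α ∈ S.R.Φ, φ α ≠ 0)
    {χ₀ : Module.Dual ℂ T} (h0 : usp S.ι χ₀ ≠ ⊥)
    (hmax : ∀ χ, usp S.ι χ ≠ ⊥ → φ χ ≤ φ χ₀) :
    finrank ℂ (usp S.ι χ₀) ≤ 1 ∧ ∀ χ, χ ≠ χ₀ → usp S.ι χ ≤ low S φ χ := by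
  obtain ⟨u, hu, hu0⟩ := Submodule.exists_mem_ne_zero_of_ne_bot h0
  have hk : ∀ α ∈ S.R.Φ, 0 < φ α → S.e α u = 0 := by
    intro α hα hp
    by_contra hne
    have h1 : S.e α u ∈ usp S.ι (α + χ₀) := S.usp_mul (fun t => S.wt α hα t) hu
    have h2 := hmax (α + χ₀) (fun h => hne (by rw [h] at h1; exact (Submodule.mem_bot ℂ).1 h1))
    rw [map_add] at h2
    linarith
  have hst : ∀ x ∈ L, ∀ v ∈ S.D φ u, x v ∈ S.D φ u := by
    intro x hx v hv
    have h1 : S.D φ u ≤ (S.D φ u).comap x := by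
      conv_lhs => unfold RS.D
      rw [Submodule.span_le]
      rintro _ ⟨l, hl, rfl⟩
      exact S.D_stable hφ hu hk l hl x hx
    exact h1 hv
  have huD : u ∈ S.D φ u := Submodule.subset_span ⟨[], by simp, (S.gen_nil u).symm⟩
  have htop : S.D φ u = ⊤ := hirr _ (fun h => hu0 (by
    rw [h] at huD; exact (Submodule.mem_bot ℂ).1 huD)) hst
  constructor
  · -- the highest weight has multiplicity one
    have h1 : (⊤ : Submodule ℂ U) ≤ Submodule.span ℂ {u} ⊔
        ⨆ ψ, ⨆ (_ : ψ ≠ χ₀), usp S.ι ψ := by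
      rw [← htop]
      unfold RS.D
      rw [Submodule.span_le]
      rintro _ ⟨l, hl, rfl⟩
      by_cases hn : l = []
      · subst hn
        rw [S.gen_nil]
        exact Submodule.mem_sup_left (Submodule.mem_span_singleton_self u)
      · apply Submodule.mem_sup_right
        have h3 : usp S.ι (l.sum + χ₀) ≤ ⨆ ψ, ⨆ (_ : ψ ≠ χ₀), usp S.ι ψ := by
          refine le_iSup₂_of_le (l.sum + χ₀) (fun h => ?_) le_rfl
          have h4 : l.sum = 0 := by
            have := congrArg (fun z => z - χ₀) h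
            simpa using this
          have h5 := (sum_neg l hl).2 hn
          rw [h4, map_zero] at h5
          exact lt_irrefl _ h5
        exact h3 (S.gen_weight hu l fun γ hγ => (hl γ hγ).1)
    have h2 : usp S.ι χ₀ ≤ Submodule.span ℂ {u} := by
      intro x hx
      obtain ⟨y, hy, r, hr, hyr⟩ := Submodule.mem_sup.1 (h1 (Submodule.mem_top (x := x)))
      have h4 : y ∈ usp S.ι χ₀ := by
        refine (Submodule.span_le.2 ?_) hy
        rintro _ rfl
        exact hu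
      have h5 : r ∈ usp S.ι χ₀ := by
        have h6 : r = x - y := by rw [← hyr]; abel
        rw [h6]
        exact Submodule.sub_mem _ hx h4
      have h7 := (S.usp_indep χ₀).le_bot ⟨h5, hr⟩
      rw [(Submodule.mem_bot ℂ).1 h7, add_zero] at hyr
      rw [← hyr]
      exact hy
    exact (Submodule.finrank_mono h2).trans (finrank_span_singleton hu0).le
  · intro χ hχ x hx
    have h1 : (⊤ : Submodule ℂ U) ≤ low S φ χ ⊔ ⨆ ψ, ⨆ (_ : ψ ≠ χ), usp S.ι ψ := by
      rw [← htop]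
      unfold RS.D
      rw [Submodule.span_le]
      rintro _ ⟨l, hl, rfl⟩
      by_cases hs : l.sum + χ₀ = χ
      · cases l with
        | nil =>
          rw [List.sum_nil, zero_add] at hs
          exact absurd hs.symm hχ
        | cons γ l =>
          apply Submodule.mem_sup_left
          have hγ := hl γ List.mem_cons_self
          refine Submodule.subset_span ⟨γ, hγ.1, hγ.2, S.gen u l, ?_, S.gen_cons u γ l⟩
          have h2 := S.gen_weight hu l fun β hβ => (hl β (List.mem_cons_of_mem _ hβ)).1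
          have h3 : χ - γ = l.sum + χ₀ := by
            rw [← hs, List.sum_cons]
            abel
          rw [h3]
          exact h2
      · apply Submodule.mem_sup_right
        have h3 : usp S.ι (l.sum + χ₀) ≤ ⨆ ψ, ⨆ (_ : ψ ≠ χ), usp S.ι ψ :=
          le_iSup₂_of_le (l.sum + χ₀) hs le_rfl
        exact h3 (S.gen_weight hu l fun γ hγ => (hl γ hγ).1)
    obtain ⟨y, hy, r, hr, hyr⟩ := Submodule.mem_sup.1 (h1 (Submodule.mem_top (x := x)))
    have h5 : r ∈ usp S.ι χ := by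
      have h6 : r = x - y := by rw [← hyr]; abel
      rw [h6]
      exact Submodule.sub_mem _ hx (low_le φ χ hy)
    have h7 := (S.usp_indep χ).le_bot ⟨h5, hr⟩
    rw [(Submodule.mem_bot ℂ).1 h7, add_zero] at hyr
    rw [← hyr]
    exact hy

end Pool.Agent.L7h78.DM
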