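import Pool.Agent.L7h78.DM.Hw

set_option autoImplicit false
set_option linter.unusedSectionVars false

/-!
# Project DM: multiplicity one in dimension at most six
-/

open Module

namespace Pool.Agent.L7h78.DM

open Pool.Agent.Y102.SP Pool.Agent.R912

variable {U : Type} [AddCommGroup U] [Module ℂ U] [FiniteDimensional ℂ U]
  {T : Type} [AddCommGroup T] [Module ℂ T] {L : Submodule ℂ (Module.End ℂ U)} {S : RS L T}

theorem e_mem {α : Module.Dual ℂ T} (hα : α ∈ S.R.Φ) {χ : Module.Dual ℂ T} {u : U}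
    (hu : u ∈ usp S.ι χ) : S.e α u ∈ usp S.ι (α + χ) :=
  S.usp_mul (fun t => S.wt α hα t) hu

theorem e_zero {α : Module.Dual ℂ T} (hα : α ∈ S.R.Φ) {χ : Module.Dual ℂ T} {u : U}
    (hu : u ∈ usp S.ι χ) (h : usp S.ι (α + χ) = ⊥) : S.e α u = 0 := by
  have h1 := e_mem hα hu
  rw [h] at h1
  exact (Submodule.mem_bot ℂ).1 h1

/-- the coroot acts by the pairing -/
theorem h_act (W : WP S) {α : Module.Dual ℂ T} (hα : α ∈ S.R.Φ) {χ : Module.Dual ℂ T} {u : U}
    (hu : u ∈ usp S.ι χ) : S.e α (S.e (-α) u) - S.e (-α) (S.e α u) = (S.R.pr α χ : ℂ) • u := by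
  by_cases h0 : u = 0
  · subst h0
    simp
  · have h1 := S.br α hα
    have h2 := congrArg (fun f : Module.End ℂ U => f u) h1
    have hne : usp S.ι χ ≠ ⊥ := fun h => h0 (by rw [h] at hu; exact (Submodule.mem_bot ℂ).1 hu)
    rw [← W.eig α hα χ hne, ← hu (S.h α)]
    exact h2

theorem ne_smul {α β : Module.Dual ℂ T} (hα : α ∈ S.R.Φ) (hβ : β ∈ S.R.Φ) (h1 : α ≠ β)
    (h2 : α ≠ -β) (q : ℚ) : α ≠ q • β := by
  intro h
  have h3 : q • β ∈ S.R.Φ := h ▸ hα
  rcases S.R.red β hβ q h3 with rfl | rfl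
  · exact h1 (by rw [h, one_smul])
  · exact h2 (by rw [h, neg_one_smul])

theorem pr_symm_zero {α β : Module.Dual ℂ T} (hα : α ∈ S.R.Φ) (hβ : β ∈ S.R.Φ) (h1 : β ≠ α)
    (h2 : β ≠ -α) (h : S.R.pr α β ≠ 0) : 1 ≤ S.R.pr α β * S.R.pr β α := by
  rcases S.R.cox α hα β hβ h1 h2 with ⟨h3, -⟩ | ⟨h3, -⟩
  · exact absurd h3 h
  · exact h3

/-- the pairing with the coroot of a root which is a sum or difference of two roots -/
theorem pr_zero_of {α β γ : Module.Dual ℂ T} (hα : α ∈ S.R.Φ) (hβ : β ∈ S.R.Φ) (hγ : γ ∈ S.R.Φ)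
    {a b : ℚ} (h : γ = a • α + b • β) {χ : Module.Dual ℂ T} (h1 : S.R.pr α χ = 0)
    (h2 : S.R.pr β χ = 0) : S.R.pr γ χ = 0 := by
  have hc := S.cor
  have h3 := rB_root hc hα χ
  have h4 := rB_root hc hβ χ
  have h5 := rB_root hc hγ χ
  rw [h1, zero_mul] at h3
  rw [h2, zero_mul] at h4
  have h6 : rB S.R χ γ = 0 := by
    rw [h, rB_add', rB_smul', rB_smul']
    have h7 : rB S.R χ α = 0 := by linarith
    have h8 : rB S.R χ β = 0 := by linarith
    rw [h7, h8, mul_zero, mul_zero, add_zero]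
  rw [h6, mul_zero] at h5
  rcases mul_eq_zero.1 h5.symm with h7 | h7
  · exact h7
  · exact absurd h7 (rB_pos hγ).ne'

/-- the situation of a weight of multiplicity two in dimension six -/
structure Six (S : RS L T) (ω α β : Module.Dual ℂ T) : Prop where
  hα : α ∈ S.R.Φ
  hβ : β ∈ S.R.Φ
  ne : β ≠ α
  ne' : β ≠ -α
  all : ∀ χ, usp S.ι χ ≠ ⊥ → χ = ω ∨ χ = ω + α ∨ χ = ω + β ∨ χ = ω - α ∨ χ = ω - β
  w0 : usp S.ι ω ≠ ⊥
  w1 : usp S.ι (ω + α) ≠ ⊥
  w2 : usp S.ι (ω + β) ≠ ⊥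
  w3 : usp S.ι (ω - α) ≠ ⊥
  w4 : usp S.ι (ω - β) ≠ ⊥
  d1 : finrank ℂ (usp S.ι (ω + α)) ≤ 1
  d2 : finrank ℂ (usp S.ι (ω + β)) ≤ 1
  d3 : finrank ℂ (usp S.ι (ω - α)) ≤ 1
  d4 : finrank ℂ (usp S.ι (ω - β)) ≤ 1

namespace Six

variable {ω α β : Module.Dual ℂ T}

theorem swap (h : Six S ω α β) : Six S ω β α where
  hα := h.hβ
  hβ := h.hα
  ne := h.ne.symm
  ne' := fun h1 => h.ne' (by rw [h1, neg_neg])
  all := fun χ hχ => by
    rcases h.all χ hχ with h1 | h1 | h1 | h1 | h1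
    · exact Or.inl h1
    · exact Or.inr (Or.inr (Or.inl h1))
    · exact Or.inr (Or.inl h1)
    · exact Or.inr (Or.inr (Or.inr (Or.inr h1)))
    · exact Or.inr (Or.inr (Or.inr (Or.inl h1)))
  w0 := h.w0
  w1 := h.w2
  w2 := h.w1
  w3 := h.w4
  w4 := h.w3
  d1 := h.d2
  d2 := h.d1
  d3 := h.d4
  d4 := h.d3

theorem neg (h : Six S ω α β) : Six S ω (-α) β where
  hα := S.R.neg α h.hα
  hβ := h.hβ
  ne := h.ne'
  ne' := by rw [neg_neg]; exact h.ne
  all := fun χ hχ => by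
    rw [← sub_eq_add_neg, sub_neg_eq_add]
    rcases h.all χ hχ with h1 | h1 | h1 | h1 | h1
    · exact Or.inl h1
    · exact Or.inr (Or.inr (Or.inr (Or.inl h1)))
    · exact Or.inr (Or.inr (Or.inl h1))
    · exact Or.inr (Or.inl h1)
    · exact Or.inr (Or.inr (Or.inr (Or.inr h1)))
  w0 := h.w0
  w1 := by rw [← sub_eq_add_neg]; exact h.w3
  w2 := h.w2
  w3 := by rw [sub_neg_eq_add]; exact h.w1
  w4 := h.w4
  d1 := by rw [← sub_eq_add_neg]; exact h.d3
  d2 := h.d2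
  d3 := by rw [sub_neg_eq_add]; exact h.d1
  d4 := h.d4

theorem nab (h : Six S ω α β) (q : ℚ) : α ≠ q • β :=
  ne_smul h.hα h.hβ h.ne.symm (fun h1 => h.ne' (by rw [h1, neg_neg])) q

theorem nba (h : Six S ω α β) (q : ℚ) : β ≠ q • α :=
  ne_smul h.hβ h.hα h.ne h.ne' q

theorem α0 (h : Six S ω α β) : α ≠ 0 := fun h1 => S.R.zero (h1 ▸ h.hα)

theorem β0 (h : Six S ω α β) : β ≠ 0 := fun h1 => S.R.zero (h1 ▸ h.hβ)

/-- integral combinations which are not weights -/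
theorem nw (h : Six S ω α β) {a b : ℚ} (hab : ¬ ((a = 0 ∧ b = 0) ∨ (a = 1 ∧ b = 0) ∨
    (a = 0 ∧ b = 1) ∨ (a = -1 ∧ b = 0) ∨ (a = 0 ∧ b = -1))) {χ : Module.Dual ℂ T}
    (hχ : χ = ω + a • α + b • β) : usp S.ι χ = ⊥ := by
  by_contra hne
  have key : ∀ c d : ℚ, c • α + d • β = 0 → c = 0 ∧ d = 0 := by
    intro c d hcd
    by_cases hc : c = 0
    · rw [hc, zero_smul, zero_add] at hcd
      exact ⟨hc, (smul_eq_zero.1 hcd).resolve_right h.β0⟩
    · exfalso
      refine h.nab (-(c⁻¹ * d)) ?_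
      have h1 : c⁻¹ • (c • α + d • β) = 0 := by rw [hcd, smul_zero]
      rw [smul_add, smul_smul, smul_smul, inv_mul_cancel₀ hc, one_smul] at h1
      rw [neg_smul]
      exact eq_neg_of_add_eq_zero_left h1
  apply hab
  rcases h.all χ hne with h1 | h1 | h1 | h1 | h1
  · have h2 : a • α + b • β = 0 := by
      have h3 : ω + a • α + b • β = ω := by rw [← hχ, h1]
      calc a • α + b • β = (ω + a • α + b • β) - ω := by abel
        _ = 0 := by rw [h3, sub_self]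
    exact Or.inl (key a b h2)
  · have h2 : (a - 1) • α + b • β = 0 := by
      have h3 : ω + a • α + b • β = ω + α := by rw [← hχ, h1]
      calc (a - 1) • α + b • β = (ω + a • α + b • β) - (ω + α) := by
            rw [sub_smul, one_smul]; abel
        _ = 0 := by rw [h3, sub_self]
    obtain ⟨h4, h5⟩ := key _ b h2
    exact Or.inr (Or.inl ⟨by linarith, h5⟩)
  · have h2 : a • α + (b - 1) • β = 0 := by
      have h3 : ω + a • α + b • β = ω + β := by rw [← hχ, h1]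
      calc a • α + (b - 1) • β = (ω + a • α + b • β) - (ω + β) := by
            rw [sub_smul, one_smul]; abel
        _ = 0 := by rw [h3, sub_self]
    obtain ⟨h4, h5⟩ := key a _ h2
    exact Or.inr (Or.inr (Or.inl ⟨h4, by linarith⟩))
  · have h2 : (a + 1) • α + b • β = 0 := by
      have h3 : ω + a • α + b • β = ω - α := by rw [← hχ, h1]
      calc (a + 1) • α + b • β = (ω + a • α + b • β) - (ω - α) := by
            rw [add_smul, one_smul]; abel
        _ = 0 := by rw [h3, sub_self]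
    obtain ⟨h4, h5⟩ := key _ b h2
    exact Or.inr (Or.inr (Or.inr (Or.inl ⟨by linarith, h5⟩)))
  · have h2 : a • α + (b + 1) • β = 0 := by
      have h3 : ω + a • α + b • β = ω - β := by rw [← hχ, h1]
      calc a • α + (b + 1) • β = (ω + a • α + b • β) - (ω - β) := by
            rw [add_smul, one_smul]; abel
        _ = 0 := by rw [h3, sub_self]
    obtain ⟨h4, h5⟩ := key a _ h2
    exact Or.inr (Or.inr (Or.inr (Or.inr ⟨h4, by linarith⟩)))

/-- `ω` is orthogonal to `α` -/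
theorem prω (h : Six S ω α β) (W : WP S) : S.R.pr α ω = 0 := by
  obtain ⟨n, hn⟩ := W.int α h.hα ω h.w0
  -- it is sufficient to show that it is not positive
  have key : ∀ (α' : Module.Dual ℂ T), Six S ω α' β → ∀ n : ℤ, S.R.pr α' ω = n → ¬ 0 < n := by
    intro α' h' n hn hpos
    obtain ⟨j, rfl⟩ := Int.eq_ofNat_of_zero_le hpos.le
    have hj : (0 : ℤ) < (j : ℤ) := hpos
    have hj' : 0 < j := by exact_mod_cast hj
    have h1 : S.R.pr α' (ω + α') = ((j + 2 : ℕ) : ℚ) := by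
      rw [map_add, hn, S.R.two α' h'.hα]
      push_cast
      rfl
    have h2 := W.str α' h'.hα (ω + α') (j + 2) h1.ge h'.w1
    apply h2
    refine h'.nw (a := -((j : ℚ) + 1)) (b := 0) ?_ ?_
    · have hjq : (1 : ℚ) ≤ j := by exact_mod_cast hj'
      rintro (⟨h3, -⟩ | ⟨h3, -⟩ | ⟨-, h3⟩ | ⟨h3, -⟩ | ⟨-, h3⟩)
      · linarith
      · linarith
      · norm_num at h3
      · linarith
      · norm_num at h3
    · push_cast
      module
  rcases lt_trichotomy n 0 with h1 | h1 | h1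
  · exfalso
    refine key (-α) h.neg (-n) ?_ (by omega)
    rw [S.R.pneg α h.hα, hn]
    push_cast
    rfl
  · rw [hn, h1, Int.cast_zero]
  · exact absurd h1 (key α h n hn)

/-- `α` and `β` are orthogonal -/
theorem prβ (h : Six S ω α β) (W : WP S) : S.R.pr α β = 0 := by
  by_contra hne
  have h1 : S.R.pr α (ω + β) = S.R.pr α β := by rw [map_add, h.prω W, zero_add]
  have h2 := W.refl α h.hα (ω + β) h.w2
  rw [h1] at h2
  have h3 : usp S.ι (ω + β - S.R.pr α β • α) = ⊥ := by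
    refine h.nw (a := -S.R.pr α β) (b := 1) ?_ ?_
    · rintro (⟨-, h3⟩ | ⟨-, h3⟩ | ⟨h3, -⟩ | ⟨-, h3⟩ | ⟨-, h3⟩)
      · norm_num at h3
      · norm_num at h3
      · exact hne (by linarith)
      · norm_num at h3
      · norm_num at h3
    · module
  rw [h3, finrank_bot] at h2
  exact h.w2 (Submodule.finrank_eq_zero.1 h2.symm)

/-- the case where `β - α` is a root -/
theorem key (h : Six S ω α β) (W : WP S) (hγ : β - α ∈ S.R.Φ) {a b : U}
    (ha : a ∈ usp S.ι (ω + α)) (ha0 : a ≠ 0) (hb : b ∈ usp S.ι (ω + β)) :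
    ∃ c : ℂ, S.e (-β) b = c • S.e (-α) a := by
  set γ := β - α with hγdef
  have hγeq : γ = (-1 : ℚ) • α + (1 : ℚ) • β := by rw [hγdef]; module
  have hpω : S.R.pr γ ω = 0 := pr_zero_of h.hα h.hβ hγ hγeq (h.prω W) (h.swap.prω W)
  have hγα : γ ≠ α := by
    intro h1
    refine h.nba 2 ?_
    have : β = γ + α := by rw [hγdef]; abel
    rw [this, h1, two_smul]
  have hγα' : γ ≠ -α := by
    intro h1
    apply h.β0
    have : β = γ + α := by rw [hγdef]; abel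
    rw [this, h1, neg_add_cancel]
  have h1 : S.R.pr α γ = -2 := by
    rw [hγdef, map_sub, h.prβ W, S.R.two α h.hα]
    norm_num
  have h2 : 1 ≤ S.R.pr α γ * S.R.pr γ α :=
    pr_symm_zero h.hα hγ hγα hγα' (by rw [h1]; norm_num)
  have h3 : S.R.pr γ α < 0 := by
    rw [h1] at h2
    linarith
  obtain ⟨n, hn⟩ := W.int γ hγ (ω + α) h.w1
  have h4 : S.R.pr γ (ω + α) < 0 := by
    rw [map_add, hpω, zero_add]
    exact h3
  obtain ⟨m, hm⟩ : ∃ m : ℕ, S.R.pr (-γ) (ω + α) = ((m + 1 : ℕ) : ℚ) := by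
    have h5 : n < 0 := by
      rw [hn] at h4
      exact_mod_cast h4
    obtain ⟨m, hm⟩ := Int.eq_ofNat_of_zero_le (show 0 ≤ -n - 1 by omega)
    refine ⟨m, ?_⟩
    rw [S.R.pneg γ hγ, hn]
    have h6 : -n = (m : ℤ) + 1 := by omega
    have h7 : (-(n : ℚ)) = ((-n : ℤ) : ℚ) := by push_cast; rfl
    rw [h7, h6]
    push_cast
    rfl
  have h5 : S.e γ a ≠ 0 := by
    intro h6
    apply ha0
    refine W.inj (-γ) (S.R.neg γ hγ) (ω + α) (m + 1) hm a ha ?_
    rw [neg_neg, pow_succ, Module.End.mul_apply, h6, map_zero]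
  have h6 : S.e γ a ∈ usp S.ι (ω + β) := by
    have h7 := e_mem hγ ha
    have h8 : γ + (ω + α) = ω + β := by rw [hγdef]; abel
    rwa [h8] at h7
  obtain ⟨c, hc⟩ : ∃ c : ℂ, b = c • S.e γ a := by
    have h7 : finrank ℂ (usp S.ι (ω + β)) = 1 :=
      le_antisymm h.d2 (Nat.one_le_iff_ne_zero.2 fun h8 => h.w2 (Submodule.finrank_eq_zero.1 h8))
    obtain ⟨c, hc⟩ := (finrank_eq_one_iff_of_nonzero' (⟨S.e γ a, h6⟩ : usp S.ι (ω + β))
      (fun h8 => h5 (congrArg Subtype.val h8))).1 h7 ⟨b, hb⟩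
    exact ⟨c, (congrArg Subtype.val hc).symm⟩
  have h7 : S.e (-β) a = 0 := by
    refine e_zero (S.R.neg β h.hβ) ha (h.nw (a := 1) (b := -1) ?_ ?_)
    · rintro (⟨h3, -⟩ | ⟨-, h3⟩ | ⟨h3, -⟩ | ⟨h3, -⟩ | ⟨h3, -⟩) <;> norm_num at h3
    · module
  have h8 : -β + γ = -α := by rw [hγdef]; abel
  obtain ⟨d, hd⟩ := S.add1 (-β) (S.R.neg β h.hβ) γ hγ (by rw [h8]; exact S.R.neg α h.hα)
  rw [h8] at hd
  have h9 := congrArg (fun f : Module.End ℂ U => f a) hd
  simp only [LinearMap.sub_apply, Module.End.mul_apply, LinearMap.smul_apply, h7, map_zero,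
    sub_zero] at h9
  exact ⟨c * d, by rw [hc, map_smul, h9, smul_smul]⟩

end Six

end Pool.Agent.L7h78.DM
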