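import Pool.Agent.R912.U2

set_option autoImplicit false

/-!
# Project DM (helper78): semisimplicity at every prime in dimension at most six. Statements

THEOREM (hard anchor MP_8f1292_ag, conjecture of Grothendieck and Serre). Let `(V_ℓ)` be a pure
polarized system over `ℚ` of dimension `N ≤ 6`. If for ONE prime number `ℓ₀` the representation `V_ℓ₀` is
absolutely irreducible over all finite extensions of `ℚ`, then `V_ℓ` is semisimple for EVERY `ℓ`.

Proof. It is sufficient to find an element `X` of the Lie algebra `𝔤` of the image at `ℓ₀` with simple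
eigenvalues and without isotropic relation between them (`R932.SQ.semisimple_all`). `𝔤` (its part
`𝔤'` of skew elements) is absolutely irreducible, so over `ℂ` it is semisimple and has a root
decomposition `RS L T` (library `R912.U1`, `U2`). The weights of an irreducible representation of
dimension at most six are of multiplicity one (`S_MF`), and if the dimension is six and `x, y, z` are
three different weights, no two of them opposite, then `x + y + z ≠ 0` (`S_T3`). So generic
elements have the property `Gd` below, and such an element exists over `ℚ_ℓ₀` (`S_DESC`).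

Notation of `R912.U2`: `S : RS L T` is a Lie algebra `L` of endomorphisms of `U` with a root decomposition
(`S.ι : T → L` Cartan subalgebra, `S.R.Φ` roots in `Module.Dual ℂ T`, `S.e α` root vectors, `S.h α`
coroots, `S.R.pr α χ : ℚ` the value of `χ` at the coroot of `α` for the weights `χ`); `usp S.ι χ` is the space
of the vectors of weight `χ` in `U`. The fields of `S.R` (`Y102.SP.Root`) are the root axioms
(`two`, `refl`, `red`, `cox`, `add`, ...); `S.usp_mul`: `S.e α` maps `usp χ` to `usp (α + χ)`;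
`S.usp_indep`: the weight spaces are independent; `S.triple`: the `sl₂` triples; `Y102.SP.Wt_prim`.
-/

open Module Matrix Polynomial

namespace Pool.Agent.L7h78.DM

open Pool.Agent.Y102.SP Pool.Agent.R912

/-- `L` acts irreducibly -/
def Irr {U : Type} [AddCommGroup U] [Module ℂ U] (L : Submodule ℂ (Module.End ℂ U)) : Prop :=
  ∀ P : Submodule ℂ U, P ≠ ⊥ → (∀ x ∈ L, ∀ u ∈ P, x u ∈ P) → P = ⊤

/-- **(RS)** The root decomposition exists. Proof: `L` is a Lie subalgebra `𝔩` of `Module.End ℂ U` (`LieRing.ofAssociativeRing`);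
it has trivial radical by Mathlib's `LieAlgebra.hasTrivialRadical_of_isIrreducible_of_isFaithful`
(`Mathlib/Algebra/Lie/Semisimple/Lemmas.lean`), so it is `IsKilling` (instance
`HasTrivialRadical.instIsKilling`, `CartanCriterion.lean`); then exactly as in the proof of
`Pool.Agent.R912.Hyp.exists_rs` (`R912/U12.lean`, copy it; uses `exists_absRoot'`). -/
def S_RS : Prop := ∀ (U : Type) [AddCommGroup U] [Module ℂ U] [FiniteDimensional ℂ U]
  [Nontrivial U] (L : Submodule ℂ (Module.End ℂ U)), (∀ x ∈ L, ∀ y ∈ L, x * y - y * x ∈ L) →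
  (∀ x ∈ L, LinearMap.trace ℂ U x = 0) → Irr L →
  ∃ (T : Type) (_ : AddCommGroup T) (_ : Module ℂ T), Nonempty (RS L T)

/-- the properties of the weights of the space `U` -/
structure WP {U : Type} [AddCommGroup U] [Module ℂ U] {T : Type} [AddCommGroup T] [Module ℂ T]
    {L : Submodule ℂ (Module.End ℂ U)} (S : RS L T) : Prop where
  top : ⨆ χ, usp S.ι χ = ⊤
  int : ∀ α ∈ S.R.Φ, ∀ χ, usp S.ι χ ≠ ⊥ → ∃ n : ℤ, S.R.pr α χ = n
  eig : ∀ α ∈ S.R.Φ, ∀ χ, usp S.ι χ ≠ ⊥ → χ (S.h α) = (S.R.pr α χ : ℂ)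
  inj : ∀ α ∈ S.R.Φ, ∀ χ, ∀ j : ℕ, S.R.pr α χ = j → ∀ x ∈ usp S.ι χ,
    (S.e (-α) ^ j) x = 0 → x = 0
  refl : ∀ α ∈ S.R.Φ, ∀ χ, usp S.ι χ ≠ ⊥ →
    finrank ℂ (usp S.ι (χ - S.R.pr α χ • α)) = finrank ℂ (usp S.ι χ)
  str : ∀ α ∈ S.R.Φ, ∀ χ, ∀ j : ℕ, (j : ℚ) ≤ S.R.pr α χ → usp S.ι χ ≠ ⊥ →
    usp S.ι (χ - (j : ℚ) • α) ≠ ⊥
  card : ∀ F : Finset (Module.Dual ℂ T), ∑ χ ∈ F, finrank ℂ (usp S.ι χ) ≤ finrank ℂ U

/-- **(WP)** the properties of the weights. `top`: the sum of the weight spaces is stable and not zero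
(a common eigenvector of the commuting `S.ι t` exists; compare `Nσ_span` in `R912/U12.lean`, `kil_eig`).
`int`, `eig`: as `RS.wint` in `R912/U2.lean` (with `U` instead of `Module.End ℂ U`).
`inj`: descending induction on the weight: if `h x = j x`, `f ^ j x = 0` (`j : ℕ`, `f = S.e (-α)`, `e = S.e α`),
then `e (f ^ (j + 1) x) = f ^ (j + 1) (e x) + (j + 1) f ^ j (h - j) x = f ^ (j + 1) (e x)`, so
`f ^ (j + 2) (e x) = 0`, so `e x = 0` by induction (weight `j + 2`; the powers of `e` kill `x` finally), so `x` is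
primitive or zero, and `f ^ j x ≠ 0` for a primitive vector (`pow_toEnd_f_ne_zero_of_eq_nat`).
`refl`, `str` follow from `inj` (for `α` and `-α`), `card` from `S.usp_indep`. -/
def S_WP : Prop := ∀ (U : Type) [AddCommGroup U] [Module ℂ U] [FiniteDimensional ℂ U]
  [Nontrivial U] (T : Type) [AddCommGroup T] [Module ℂ T] (L : Submodule ℂ (Module.End ℂ U))
  (S : RS L T), Irr L → WP S

/-- **(MF)** multiplicity one in dimension at most six (helper78 does this) -/
def S_MF : Prop := ∀ (U : Type) [AddCommGroup U] [Module ℂ U] [FiniteDimensional ℂ U]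
  [Nontrivial U] (T : Type) [AddCommGroup T] [Module ℂ T] (L : Submodule ℂ (Module.End ℂ U))
  (S : RS L T), Irr L → WP S → (∀ t, LinearMap.trace ℂ U (S.ι t) = 0) → finrank ℂ U ≤ 6 →
  ∀ χ : Module.Dual ℂ T, finrank ℂ (usp S.ι χ) ≤ 1

/-- **(T3)** no relation between three weights. Proof. The six weights `±x, ±y, ±z` are different (so they are
not `0`), so by `card` there is no other weight and all multiplicities are one.
Suppose `x + y + z = 0`. The subspace `P = usp x ⊔ usp y ⊔ usp z` is not `⊤` (`card`, independence) and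
not `⊥`, so it is not stable under `L`, so (`S.span`) some root vector `S.e γ` does not preserve it, and there are
`a, b ∈ {x, y, z}` with `a + γ = -b`. If `a ≠ b` then `γ = -(a + b)` is the third of `x, y, z`, so `γ` is a weight with
`pr γ γ = 2` and by `str` (`j = 1`) `0` is a weight, contradiction. If `a = b` then `γ = -2 a`, `pr γ a = -1`; let
`b, c` be the two others; `pr γ b + pr γ c = 1`, so one of them, say `k = pr γ b`, is not zero (integer,
`int`), and `b - k γ = b + 2 k a` is a weight (`refl`), so one of `±x, ±y, ±z` with `c = -a-b`; in all cases this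
gives `b = q a` with `q` rational (`-c = a + b` would give `2 k = 1`). So all weights are in `ℚ a`. All roots
`δ` are differences of weights (as `S.e δ ≠ 0`, `top`), so they are in `ℚ γ` and `δ = γ` or `-γ` by
`S.R.red`. So the sum of all `usp ((2 n + 1) a)`, `n : ℤ`, is stable under `L` and not zero, so it is `⊤`,
so all weights are odd multiples of `a`, but the sum of three odd multiples of `a` is not `0`. -/
def S_T3 : Prop := ∀ (U : Type) [AddCommGroup U] [Module ℂ U] [FiniteDimensional ℂ U]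
  [Nontrivial U] (T : Type) [AddCommGroup T] [Module ℂ T] (L : Submodule ℂ (Module.End ℂ U))
  (S : RS L T), Irr L → WP S → finrank ℂ U = 6 → ∀ x y z : Module.Dual ℂ T,
  usp S.ι x ≠ ⊥ → usp S.ι (-x) ≠ ⊥ → usp S.ι y ≠ ⊥ → usp S.ι (-y) ≠ ⊥ → usp S.ι z ≠ ⊥ →
  usp S.ι (-z) ≠ ⊥ → x ≠ 0 → y ≠ 0 → z ≠ 0 → x ≠ y → x ≠ -y → x ≠ z → x ≠ -z → y ≠ z → y ≠ -z →
  x + y + z ≠ 0

/-- simple eigenvalues, and in dimension six no relation between three of them -/
def Gd {F : Type} [Field F] {N : ℕ} (Y : Matrix (Fin N) (Fin N) F) : Prop :=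
  Y.charpoly.Separable ∧ (N = 6 → 4 * (Y ^ 4).trace ≠ ((Y ^ 2).trace) ^ 2)

/-- **(GEN)** a good element over the complex numbers. Proof (assume `S_RS`, `S_WP`, `S_MF`, `S_T3`). The case
`N = 0` is trivial (`Y = 0`). Let `L' = L.map toLin'` with its root decomposition; `tr x = 0` for `x ∈ L` as `x` is similar to
`-xᵀ`. The set `W` of the weights is finite, has `N` elements by `top`, `MF` and independence, and is
symmetric (`J`: the form pairs `usp χ` with `usp (-χ)`). Choose `t ∈ T` such that the values `χ t` are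
different for different weights and `(x + y + z) t ≠ 0` whenever `x + y + z ≠ 0`, `x, y, z ∈ W` (finitely
many nonzero functionals; a vector space over an infinite field is not a finite union of proper
subspaces). `Y = S.ι t` has `N` different eigenvalues `χ t`. If `N = 6` these are `± a, ± b, ± c` and
`4 tr Y ^ 4 - (tr Y ^ 2) ^ 2 = 4 (a^4 + b^4 + c^4 - 2 a^2 b^2 - 2 b^2 c^2 - 2 c^2 a^2)
= -4 (a + b + c) (-a + b + c) (a - b + c) (a + b - c) ≠ 0` (each factor by `S_T3`). -/
def S_GEN : Prop := ∀ (N : ℕ), N ≤ 6 → ∀ (L : Submodule ℂ (Matrix (Fin N) (Fin N) ℂ))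
  (J : Matrix (Fin N) (Fin N) ℂ), J.det ≠ 0 → (∀ x ∈ L, ∀ y ∈ L, x * y - y * x ∈ L) →
  (∀ x ∈ L, xᵀ * J + J * x = 0) →
  (∀ P : Submodule ℂ (Fin N → ℂ), P ≠ ⊥ → (∀ x ∈ L, ∀ u ∈ P, x *ᵥ u ∈ P) → P = ⊤) →
  ∃ Y ∈ L, Gd Y

/-- **(DESC)** descent. Proof. Choose finitely many `B j ∈ 𝔤` and `y j ∈ ℂ` with `Y = ∑ y j • (B j).map ι`. Let
`M = ∑ X j • (B j)` over `R = MvPolynomial (Fin m) F`, `P = M.charpoly` (monic of degree `N`),
`r = resultant P P' N (N - 1) : R` (`Mathlib/RingTheory/Polynomial/Resultant/Basic.lean`: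
`resultant_map_map`, `isUnit_resultant_iff_isCoprime`, `resultant_ne_zero`) and
`q = 4 tr (M ^ 4) - (tr (M ^ 2)) ^ 2`. The values of `r` (and of `q` if `N = 6`) at `y` are not
zero, so `r * q ≠ 0` and there is `x : Fin m → F` with `(r * q) (x) ≠ 0`
(`MvPolynomial.funext`, `F` is infinite). Take `X = ∑ x j • B j`. -/
def S_DESC : Prop := ∀ (F : Type) [Field F] [CharZero F] (ι : F →+* ℂ) (N : ℕ)
  (𝔤 : Submodule F (Matrix (Fin N) (Fin N) F)),
  (∃ Y ∈ Submodule.span ℂ ((fun X : Matrix (Fin N) (Fin N) F => X.map ι) '' (𝔤 : Set _)), Gd Y) →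
  ∃ X ∈ 𝔤, Gd X

/-- the skew part of a Lie algebra of similitudes -/
def Sk {F : Type} [Field F] {N : ℕ} (J : Matrix (Fin N) (Fin N) F)
    (𝔤 : Submodule F (Matrix (Fin N) (Fin N) F)) : Submodule F (Matrix (Fin N) (Fin N) F) where
  carrier := {X | Xᵀ * J + J * X = 0 ∧ ∃ a : F, X + a • (1 : Matrix (Fin N) (Fin N) F) ∈ 𝔤}
  zero_mem' := ⟨by simp, 0, by simp⟩
  add_mem' := by
    rintro X Y ⟨h1, a, h2⟩ ⟨h3, b, h4⟩
    refine ⟨?_, a + b, ?_⟩
    · have h5 : (X + Y)ᵀ * J + J * (X + Y) = (Xᵀ * J + J * X) + (Yᵀ * J + J * Y) := by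
        rw [Matrix.transpose_add, Matrix.add_mul, Matrix.mul_add]; abel
      rw [h5, h1, h3, add_zero]
    · have h5 : X + Y + (a + b) • (1 : Matrix (Fin N) (Fin N) F) =
        (X + a • (1 : Matrix (Fin N) (Fin N) F)) + (Y + b • (1 : Matrix (Fin N) (Fin N) F)) := by
        rw [add_smul]; abel
      rw [h5]
      exact 𝔤.add_mem h2 h4
  smul_mem' := by
    rintro c X ⟨h1, a, h2⟩
    refine ⟨?_, c * a, ?_⟩
    · rw [Matrix.transpose_smul, Matrix.smul_mul, Matrix.mul_smul, ← smul_add, h1, smul_zero]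
    · rw [mul_smul, ← smul_add]
      exact 𝔤.smul_mem c h2

/-- **(IRR)** absolute irreducibility. Proof. If `P` is stable under `Sk J 𝔤` it is stable under `𝔤`, as for `Y ∈ 𝔤`
with factor `c` the matrix `Y - (c / 2) • 1` is in `Sk J 𝔤`; so it is stable under the image of the
algebra generated by `𝔤`, so under all elementary matrices `(E i j).map ι`. -/
def S_IRR : Prop := ∀ (F : Type) [Field F] [CharZero F] (ι : F →+* ℂ) (N : ℕ)
  (J : Matrix (Fin N) (Fin N) F) (𝔤 : Submodule F (Matrix (Fin N) (Fin N) F)),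
  (∀ X ∈ 𝔤, ∃ c : F, Xᵀ * J + J * X = c • J) →
  Algebra.adjoin F (𝔤 : Set (Matrix (Fin N) (Fin N) F)) = ⊤ →
  ∀ P : Submodule ℂ (Fin N → ℂ), P ≠ ⊥ → (∀ X ∈ Sk J 𝔤, ∀ u ∈ P, X.map ι *ᵥ u ∈ P) → P = ⊤

/-- **(NOR)** no isotropic relation (this is `R932.SQ.NoRel` of the characteristic polynomial of
`X + a • 1` and the factor `2 a`, written out; `A` is the algebraic closure of `F = ℚ_ℓ`). Proof. The eigenvalues of
`X` are symmetric (`X` is similar to `-Xᵀ`), the roots of the characteristic polynomial of `X + a • 1` are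
the numbers `t + a`. So with `I' = {t - a}`: `I'` is a set of eigenvalues of `X` with `t ∈ I' → -t ∉ I'`, and
`I'` and `-I'` are disjoint sets of eigenvalues, so `2 |I| ≤ N ≤ 6`. To show: the sum of `I'` is not `0`.
`|I| = 1`: `0 ∉ I'`. `|I| = 2`: `t + s = 0` is excluded. `|I| = 3`: then `N = 6` and the eigenvalues are `±t, ±s, ±u`,
`t + s + u = 0` would give `4 tr X ^ 4 = (tr X ^ 2) ^ 2`. -/
def S_NOR : Prop := ∀ (F A : Type) [Field F] [CharZero F] [Field A] [Algebra F A] [IsAlgClosed A]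
  (N : ℕ), N ≤ 6 → ∀ (J X : Matrix (Fin N) (Fin N) F) (a : F), J.det ≠ 0 →
  Xᵀ * J + J * X = 0 → Gd X →
  (X + a • (1 : Matrix (Fin N) (Fin N) F)).charpoly.Separable ∧ ∀ I : Finset A, I.Nonempty →
    (∀ t ∈ I, aeval t (X + a • (1 : Matrix (Fin N) (Fin N) F)).charpoly = 0 ∧
      algebraMap F A (2 * a) - t ∉ I) →
    2 * ∑ t ∈ I, t ≠ (I.card : A) * algebraMap F A (2 * a)

end Pool.Agent.L7h78.DM
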